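import Mathlib

/-!
# MP_8400ad_co: the strong geodetic number of a Cartesian product can be much smaller than that of a factor

For every `q ≥ 1` let `G` be the complete bipartite graph with parts of size `2` and `q ^ 2`, and let
`H` be the cycle on `4 q` vertices. Every vertex of the large part of `G` is either in a given strong
geodetic set or is the middle vertex of the one geodesic chosen between the two vertices of the small
part, hence `sg(G) ≥ q ^ 2`. But the `8 q` vertices of `G □ H` over the small part are a strong geodetic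
set of `G □ H`: there are `16 q ^ 2` pairs of vertices over different vertices of the small part, and
four of them cover the cycle over a vertex of the large part.
-/

set_option autoImplicit false

namespace Pool.Agent.Results.MP_8400ad_co.ProductSmaller

open SimpleGraph

/-- `S` is a strong geodetic set of `G`: for every two distinct vertices `x`, `y` of `S` one geodesic
`P x y` (a walk from `x` to `y` whose length is the distance of `x` and `y`; the choice for the pair
`y`, `x` is the same path reversed) can be chosen such that every vertex of `G` lies on a chosen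
geodesic. -/
def IsStrongGeodetic {V : Type} (G : SimpleGraph V) (S : Finset V) : Prop :=
  ∃ P : ∀ x y : V, G.Walk x y,
    (∀ x ∈ S, ∀ y ∈ S, x ≠ y → (P x y).length = G.dist x y ∧ P y x = (P x y).reverse) ∧
    ∀ v : V, ∃ x ∈ S, ∃ y ∈ S, x ≠ y ∧ v ∈ (P x y).support

/-- `k` is the strong geodetic number of `G`: the least size of a strong geodetic set. -/
def IsStrongGeodeticNumber {V : Type} (G : SimpleGraph V) (k : ℕ) : Prop :=
  IsLeast {n : ℕ | ∃ S : Finset V, S.card = n ∧ IsStrongGeodetic G S} k

/-! ### choosing symmetric families of geodesics -/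

/-- If every pair of vertices is joined by a geodesic through the set `c x y`, these geodesics can be
chosen such that `P y x` is the reverse of `P x y`. -/
lemma exists_family {V : Type} {G : SimpleGraph V} (c : V → V → Set V)
    (hsymm : ∀ x y, c x y = c y x)
    (hc : ∀ x y, x ≠ y → ∃ p : G.Walk x y, p.length = G.dist x y ∧ ∀ v ∈ c x y, v ∈ p.support) :
    ∃ P : ∀ x y : V, G.Walk x y, (∀ x y, (P x y).length = G.dist x y) ∧
      (∀ x y, P y x = (P x y).reverse) ∧
      ∀ x y, x ≠ y → ∀ v ∈ c x y, v ∈ (P x y).support := by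
  classical
  have hc' : ∀ x y, ∃ p : G.Walk x y, p.length = G.dist x y ∧
      (x ≠ y → ∀ v ∈ c x y, v ∈ p.support) := by
    intro x y
    by_cases h : x = y
    · subst h
      exact ⟨Walk.nil, by simp, fun h => absurd rfl h⟩
    · obtain ⟨p, h1, h2⟩ := hc x y h
      exact ⟨p, h1, fun _ => h2⟩
  choose Q hQ1 hQ2 using hc'
  obtain ⟨r, hr⟩ : ∃ r : LinearOrder V, True := ⟨linearOrderOfSTO WellOrderingRel, trivial⟩
  refine ⟨fun x y => if x ≤ y then Q x y else (Q y x).reverse, ?_, ?_, ?_⟩
  · intro x y
    dsimp only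
    split_ifs with h
    · exact hQ1 x y
    · rw [Walk.length_reverse, hQ1, dist_comm]
  · intro x y
    dsimp only
    rcases lt_trichotomy x y with h | h | h
    · rw [if_neg (not_le.2 h), if_pos h.le]
    · subst h
      rw [if_pos le_rfl]
      have h0 : (Q x x).length = 0 := by rw [hQ1, dist_self]
      have h1 : Q x x = Walk.nil := (Walk.length_eq_zero_iff.1 h0).eq_nil
      rw [h1, Walk.reverse_nil]
    · rw [if_pos h.le, if_neg (not_le.2 h), Walk.reverse_reverse]
  · intro x y hxy v hv
    dsimp only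
    split_ifs with h
    · exact hQ2 x y hxy v hv
    · rw [Walk.support_reverse, List.mem_reverse]
      exact hQ2 y x (Ne.symm hxy) v (by rw [hsymm]; exact hv)

/-! ### the complete bipartite graph -/

section bipartite

variable {I : Type}

abbrev KB (I : Type) : SimpleGraph (Bool ⊕ I) := completeBipartiteGraph Bool I

lemma adj_lr (b : Bool) (i : I) : (KB I).Adj (Sum.inl b) (Sum.inr i) := by simp

lemma adj_rl (b : Bool) (i : I) : (KB I).Adj (Sum.inr i) (Sum.inl b) := by simp

lemma kb_dist [Nonempty I] (x y : Bool ⊕ I) : ∃ p : (KB I).Walk x y, p.length ≤ 2 := by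
  obtain ⟨i0⟩ := ‹Nonempty I›
  rcases x with b | i <;> rcases y with b' | i'
  · exact ⟨.cons (adj_lr b i0) (.cons (adj_rl b' i0) .nil), by simp⟩
  · exact ⟨.cons (adj_lr b i') .nil, by simp⟩
  · exact ⟨.cons (adj_rl b' i) .nil, by simp⟩
  · exact ⟨.cons (adj_rl true i) (.cons (adj_lr true i') .nil), by simp⟩

lemma kb_connected [Nonempty I] : (KB I).Connected := by
  rw [connected_iff]
  refine ⟨fun x y => ?_, inferInstance⟩
  obtain ⟨p, -⟩ := kb_dist x y
  exact ⟨p⟩

/-- a geodesic through a vertex of the large part which is not an end vertex -/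
lemma kb_middle [Nonempty I] {x y : Bool ⊕ I} (p : (KB I).Walk x y)
    (hp : p.length = (KB I).dist x y) {i : I} (hi : Sum.inr i ∈ p.support) (hx : x ≠ Sum.inr i)
    (hy : y ≠ Sum.inr i) :
    (∃ b, x = Sum.inl b) ∧ (∃ b, y = Sum.inl b) ∧ x ≠ y ∧ ∀ j : I, Sum.inr j ∈ p.support → j = i := by
  have hle : p.length ≤ 2 := by
    obtain ⟨r, hr⟩ := kb_dist x y
    rw [hp]
    exact (dist_le r).trans hr
  have hne : x ≠ y := by
    rintro rfl
    rw [dist_self] at hp
    have : p = Walk.nil := (Walk.length_eq_zero_iff.1 hp).eq_nil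
    rw [this] at hi
    simp only [Walk.support_nil, List.mem_singleton] at hi
    exact hx hi.symm
  cases p with
  | nil => exact absurd rfl hne
  | @cons _ z _ h1 p =>
    cases p with
    | nil =>
      simp only [Walk.support_cons, Walk.support_nil, List.mem_cons, List.not_mem_nil, or_false] at hi
      rcases hi with h | h
      · exact absurd h.symm hx
      · exact absurd h.symm hy
    | @cons _ z' _ h2 p =>
      cases p with
      | nil =>
        simp only [Walk.support_cons, Walk.support_nil, List.mem_cons, List.not_mem_nil, or_false] at hi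
        have hz : z = Sum.inr i := by
          rcases hi with h | h | h
          · exact absurd h.symm hx
          · exact h.symm
          · exact absurd h.symm hy
        subst hz
        have hx' : ∃ b, x = Sum.inl b := by
          rcases x with b | k
          · exact ⟨b, rfl⟩
          · simp at h1
        have hy' : ∃ b, y = Sum.inl b := by
          rcases y with b | k
          · exact ⟨b, rfl⟩
          · simp at h2
        refine ⟨hx', hy', hne, ?_⟩
        intro j hj
        obtain ⟨b, rfl⟩ := hx'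
        obtain ⟨b', rfl⟩ := hy'
        simp only [Walk.support_cons, Walk.support_nil, List.mem_cons, List.not_mem_nil, or_false,
          reduceCtorEq, false_or, Sum.inr.injEq] at hj
        exact hj
      | cons h3 p =>
        simp only [Walk.length_cons] at hle
        omega

/-- Strong geodetic sets of the complete bipartite graph are at least as large as the large part. -/
lemma kb_lower [Fintype I] [Nonempty I] (S : Finset (Bool ⊕ I)) (hS : IsStrongGeodetic (KB I) S) :
    Fintype.card I ≤ S.card := by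
  classical
  obtain ⟨P, hP, hcov⟩ := hS
  by_cases hall : ∀ i : I, Sum.inr i ∈ S
  · calc Fintype.card I = (Finset.univ.image (Sum.inr : I → Bool ⊕ I)).card := by
          rw [Finset.card_image_of_injective _ Sum.inr_injective, Finset.card_univ]
      _ ≤ S.card := by
          apply Finset.card_le_card
          intro x hx
          rw [Finset.mem_image] at hx
          obtain ⟨i, -, rfl⟩ := hx
          exact hall i
  · push Not at hall
    obtain ⟨i, hi⟩ := hall
    -- the missed vertices of the large part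
    have key : ∀ j : I, Sum.inr j ∉ S → (Sum.inl false ∈ S ∧ Sum.inl true ∈ S) ∧
        Sum.inr j ∈ (P (Sum.inl false) (Sum.inl true)).support ∧
        ∀ k : I, Sum.inr k ∈ (P (Sum.inl false) (Sum.inl true)).support → k = j := by
      intro j hj
      obtain ⟨x, hx, y, hy, hxy, hv⟩ := hcov (Sum.inr j)
      obtain ⟨hlen, hrev⟩ := hP x hx y hy hxy
      obtain ⟨⟨b, hb⟩, ⟨b', hb'⟩, -, huniq⟩ := kb_middle (P x y) hlen hv
        (by rintro rfl; exact hj hx) (by rintro rfl; exact hj hy)
      subst hb
      subst hb'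
      cases b <;> cases b'
      · exact absurd rfl hxy
      · exact ⟨⟨hx, hy⟩, hv, huniq⟩
      · refine ⟨⟨hy, hx⟩, ?_, ?_⟩
        · rw [hrev, Walk.support_reverse, List.mem_reverse]
          exact hv
        · intro k hk
          rw [hrev, Walk.support_reverse, List.mem_reverse] at hk
          exact huniq k hk
      · exact absurd rfl hxy
    obtain ⟨⟨hf, ht⟩, hi1, hi2⟩ := key i hi
    have hsub : (Finset.univ.erase i).image (Sum.inr : I → Bool ⊕ I) ∪ {Sum.inl false} ⊆ S := by
      intro x hx
      rw [Finset.mem_union, Finset.mem_image, Finset.mem_singleton] at hx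
      rcases hx with ⟨j, hj, rfl⟩ | rfl
      · by_contra hjS
        have := hi2 j (key j hjS).2.1
        rw [Finset.mem_erase] at hj
        exact hj.1 this
      · exact hf
    have h1 := Finset.card_le_card hsub
    rw [Finset.card_union_of_disjoint, Finset.card_image_of_injective _ Sum.inr_injective,
      Finset.card_erase_of_mem (Finset.mem_univ _), Finset.card_univ, Finset.card_singleton] at h1
    · have : 0 < Fintype.card I := Fintype.card_pos
      omega
    · rw [Finset.disjoint_singleton_right, Finset.mem_image]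
      rintro ⟨j, -, hj⟩
      simp at hj

/-- The set of all vertices is a strong geodetic set. -/
lemma univ_strong {V : Type} [Fintype V] [Nontrivial V] {G : SimpleGraph V} (hG : G.Connected) :
    IsStrongGeodetic G Finset.univ := by
  obtain ⟨P, h1, h2, -⟩ := exists_family (G := G) (fun _ _ => ∅) (fun _ _ => rfl) (fun x y _ => by
    obtain ⟨p, hp⟩ := (hG.preconnected x y).exists_walk_length_eq_dist
    exact ⟨p, hp, by simp⟩)
  refine ⟨P, fun x _ y _ _ => ⟨h1 x y, h2 x y⟩, fun v => ?_⟩
  obtain ⟨w, hw⟩ := exists_ne v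
  exact ⟨v, Finset.mem_univ _, w, Finset.mem_univ _, hw.symm, Walk.start_mem_support _⟩

end bipartite

/-! ### the cycle and the product -/

section product

variable (q : ℕ)

/-- the cycle on `4 q` vertices -/
abbrev CY : SimpleGraph (ZMod (4 * q)) := circulantGraph {1}

/-- the complete bipartite graph with parts of size `2` and `q ^ 2` -/
abbrev GG : SimpleGraph (Bool ⊕ (Fin q × Fin q)) := KB (Fin q × Fin q)

variable {q}

lemma one_ne (hq : 0 < q) : (1 : ZMod (4 * q)) ≠ 0 := by
  have : Fact (1 < 4 * q) := ⟨by omega⟩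
  exact one_ne_zero

lemma cy_adj (hq : 0 < q) (a : ZMod (4 * q)) : (CY q).Adj a (a + 1) := by
  simp only [CY, circulantGraph, fromRel_adj]
  refine ⟨?_, Or.inr (by simp)⟩
  intro h
  have : (1 : ZMod (4 * q)) = 0 := by
    have := congrArg (fun z => z - a) h
    simpa using this.symm
  exact one_ne hq this

lemma cy_of_adj {a b : ZMod (4 * q)} (h : (CY q).Adj a b) : b = a + 1 ∨ a = b + 1 := by
  simp only [CY, circulantGraph, fromRel_adj] at h
  rcases h.2 with h | h
  · right
    rw [Set.mem_singleton_iff] at h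
    rw [← h]; ring
  · left
    rw [Set.mem_singleton_iff] at h
    rw [← h]; ring

lemma cy_walk (hq : 0 < q) (a : ZMod (4 * q)) (d : ℕ) : ∀ b : ZMod (4 * q), b = a + d →
    ∃ w : (CY q).Walk a b, w.length = d := by
  induction d with
  | zero =>
    intro b hb
    have : b = a := by rw [hb]; simp
    subst this
    exact ⟨.nil, rfl⟩
  | succ d ih =>
    intro b hb
    obtain ⟨w, hw⟩ := ih (a + d) rfl
    have hb' : b = a + d + 1 := by rw [hb]; push_cast; ring
    subst hb'
    exact ⟨w.concat (cy_adj hq _), by rw [Walk.length_concat, hw]⟩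

lemma cy_connected (hq : 0 < q) : (CY q).Connected := by
  have : NeZero (4 * q) := ⟨by omega⟩
  rw [connected_iff]
  refine ⟨fun a b => ?_, inferInstance⟩
  obtain ⟨w, -⟩ := cy_walk hq a (b - a).val b (by rw [ZMod.natCast_zmod_val]; ring)
  exact ⟨w⟩

/-- potential in the bipartite factor -/
def lvl : Bool ⊕ (Fin q × Fin q) → ℕ
  | Sum.inl false => 0
  | Sum.inl true => 2
  | Sum.inr _ => 1

/-- potential of the product: level plus distance from `a` on the cycle -/
def pot (a : ZMod (4 * q)) (x : (Bool ⊕ (Fin q × Fin q)) × ZMod (4 * q)) : ℕ :=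
  lvl x.1 + (x.2 - a).valMinAbs.natAbs

lemma natAbs_valMinAbs_one : ((1 : ZMod (4 * q))).valMinAbs.natAbs ≤ 1 := by
  rcases Nat.eq_zero_or_pos q with h | h
  · subst h
    rfl
  · have := ZMod.valMinAbs_natCast_of_le_half (n := 4 * q) (a := 1) (by omega)
    rw [Nat.cast_one] at this
    rw [this]
    simp

lemma abs_step (x : ZMod (4 * q)) : (x + 1).valMinAbs.natAbs ≤ x.valMinAbs.natAbs + 1 := by
  have h1 := ZMod.natAbs_valMinAbs_add_le x 1
  have h2 := Int.natAbs_add_le x.valMinAbs (1 : ZMod (4 * q)).valMinAbs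
  have h3 := natAbs_valMinAbs_one (q := q)
  omega

lemma abs_step' (x : ZMod (4 * q)) : x.valMinAbs.natAbs ≤ (x + 1).valMinAbs.natAbs + 1 := by
  have h1 := abs_step (-(x + 1))
  have h2 : -(x + 1) + 1 = -x := by ring
  rw [h2, ZMod.natAbs_valMinAbs_neg, ZMod.natAbs_valMinAbs_neg] at h1
  exact h1

lemma pot_step (a : ZMod (4 * q)) {x y : (Bool ⊕ (Fin q × Fin q)) × ZMod (4 * q)}
    (h : (GG q □ CY q).Adj x y) : pot a y ≤ pot a x + 1 := by
  rw [boxProd_adj] at h
  obtain ⟨g, z⟩ := x
  obtain ⟨g', z'⟩ := y
  dsimp only at h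
  unfold pot
  dsimp only
  rcases h with ⟨h, rfl⟩ | ⟨h, rfl⟩
  · have : lvl g' ≤ lvl g + 1 := by
      rcases g with (_ | _) | g <;> rcases g' with (_ | _) | g' <;> simp [lvl] at h ⊢
    omega
  · rcases cy_of_adj h with h | h
    · subst h
      have := abs_step (z - a)
      rw [show z - a + 1 = z + 1 - a by ring] at this
      omega
    · subst h
      have := abs_step' (z' - a)
      rw [show z' - a + 1 = z' + 1 - a by ring] at this
      omega

lemma pot_walk (a : ZMod (4 * q)) {x y : (Bool ⊕ (Fin q × Fin q)) × ZMod (4 * q)}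
    (w : (GG q □ CY q).Walk x y) : pot a y ≤ pot a x + w.length := by
  induction w with
  | nil => simp
  | cons h p ih =>
    have := pot_step a h
    rw [Walk.length_cons]
    omega

lemma vertical (hq : 0 < q) (g : Bool ⊕ (Fin q × Fin q)) (a : ZMod (4 * q)) (d : ℕ) :
    ∀ b : ZMod (4 * q), b = a + d →
    ∃ w : (GG q □ CY q).Walk (g, a) (g, b), w.length = d ∧
      ∀ k ≤ d, (g, a + (k : ZMod (4 * q))) ∈ w.support := by
  induction d with
  | zero =>
    intro b hb
    have : b = a := by rw [hb]; simp
    subst this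
    refine ⟨.nil, rfl, ?_⟩
    intro k hk
    obtain rfl : k = 0 := by omega
    simp
  | succ d ih =>
    intro b hb
    obtain ⟨w, hw, hs⟩ := ih (a + d) rfl
    have hb' : b = a + d + 1 := by rw [hb]; push_cast; ring
    subst hb'
    have hadj : (GG q □ CY q).Adj (g, a + d) (g, a + d + 1) := by
      rw [boxProd_adj]
      exact Or.inr ⟨cy_adj hq _, rfl⟩
    refine ⟨w.concat hadj, by rw [Walk.length_concat, hw], ?_⟩
    intro k hk
    rw [Walk.support_concat, List.mem_append]
    rcases Nat.lt_or_ge d k with h | h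
    · obtain rfl : k = d + 1 := by omega
      right
      rw [List.mem_singleton]
      push_cast
      rw [add_assoc]
    · left
      exact hs k h

/-- A geodesic between vertices over the two vertices of the small part of `G` which passes through a
given vertex of the large part and covers an arc of the cycle there. -/
lemma geodesic (hq : 0 < q) (i : Fin q × Fin q) (a : ZMod (4 * q)) (d : ℕ) (hd : d ≤ 2 * q) :
    ∃ w : (GG q □ CY q).Walk (Sum.inl false, a) (Sum.inl true, a + (d : ZMod (4 * q))),
      w.length = (GG q □ CY q).dist (Sum.inl false, a) (Sum.inl true, a + (d : ZMod (4 * q))) ∧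
      ∀ k ≤ d, (Sum.inr i, a + (k : ZMod (4 * q))) ∈ w.support := by
  obtain ⟨w, hw, hs⟩ := vertical hq (Sum.inr i) a d _ rfl
  have h1 : (GG q □ CY q).Adj (Sum.inl false, a) (Sum.inr i, a) := by
    rw [boxProd_adj]
    exact Or.inl ⟨adj_lr _ _, rfl⟩
  have h2 : (GG q □ CY q).Adj (Sum.inr i, a + (d : ZMod (4 * q)))
      (Sum.inl true, a + (d : ZMod (4 * q))) := by
    rw [boxProd_adj]
    exact Or.inl ⟨adj_rl _ _, rfl⟩
  have hlen : (Walk.cons h1 (w.concat h2)).length = d + 2 := by
    rw [Walk.length_cons, Walk.length_concat, hw]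
  refine ⟨.cons h1 (w.concat h2), ?_, ?_⟩
  · apply le_antisymm
    · obtain ⟨r, hr⟩ := (Walk.reachable (.cons h1 (w.concat h2))).exists_walk_length_eq_dist
      rw [← hr, hlen]
      have h3 := pot_walk a r
      have h4 : pot a (Sum.inl false, a) = 0 := by simp [pot, lvl]
      have h5 : pot a (Sum.inl true, a + (d : ZMod (4 * q))) = 2 + d := by
        unfold pot
        dsimp only [lvl]
        rw [add_sub_cancel_left, ZMod.valMinAbs_natCast_of_le_half (by omega), Int.natAbs_natCast]
      omega
    · exact dist_le _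
  · intro k hk
    rw [Walk.support_cons, Walk.support_concat]
    exact List.mem_cons_of_mem _ (List.mem_append_left _ (hs k hk))

/-- The part of the fibres that has to be covered by the geodesic between the vertices `(0, a)` and
`(1, b)` of the product. -/
def TS (a b : ZMod (4 * q)) : Set ((Bool ⊕ (Fin q × Fin q)) × ZMod (4 * q)) :=
  {v | ∃ (r j : Fin q) (s k : ℕ), a = ((r.val + q * s : ℕ) : ZMod (4 * q)) ∧
    b = a + ((q + j.val : ℕ) : ZMod (4 * q)) ∧ k ≤ q + j.val ∧
    v = (Sum.inr (r, j), a + (k : ZMod (4 * q)))}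

lemma rep_unique {a b : ZMod (4 * q)} {r r' j j' : Fin q} {s s' : ℕ}
    (h1 : a = ((r.val + q * s : ℕ) : ZMod (4 * q))) (h1' : a = ((r'.val + q * s' : ℕ) : ZMod (4 * q)))
    (h2 : b = a + ((q + j.val : ℕ) : ZMod (4 * q))) (h2' : b = a + ((q + j'.val : ℕ) : ZMod (4 * q))) :
    r = r' ∧ j = j' := by
  constructor
  · rw [h1, ZMod.natCast_eq_natCast_iff] at h1'
    have h3 : (r.val + q * s) ≡ (r'.val + q * s') [MOD q] := h1'.of_mul_left 4
    unfold Nat.ModEq at h3
    rw [Nat.add_mul_mod_self_left, Nat.add_mul_mod_self_left, Nat.mod_eq_of_lt r.isLt,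
      Nat.mod_eq_of_lt r'.isLt] at h3
    exact Fin.ext h3
  · rw [h2, add_right_inj, ZMod.natCast_eq_natCast_iff] at h2'
    unfold Nat.ModEq at h2'
    have hj := j.isLt
    have hj' := j'.isLt
    rw [Nat.mod_eq_of_lt (by omega), Nat.mod_eq_of_lt (by omega)] at h2'
    exact Fin.ext (by omega)

/-- the sets that the chosen geodesics have to contain -/
def cset : (Bool ⊕ (Fin q × Fin q)) × ZMod (4 * q) → (Bool ⊕ (Fin q × Fin q)) × ZMod (4 * q) →
    Set ((Bool ⊕ (Fin q × Fin q)) × ZMod (4 * q))
  | (Sum.inl false, a), (Sum.inl true, b) => TS a b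
  | (Sum.inl true, b), (Sum.inl false, a) => TS a b
  | _, _ => ∅

lemma cset_symm (x y : (Bool ⊕ (Fin q × Fin q)) × ZMod (4 * q)) : cset x y = cset y x := by
  rcases x with ⟨(_ | _) | _, _⟩ <;> rcases y with ⟨(_ | _) | _, _⟩ <;> rfl

lemma ts_walk (hq : 0 < q) (a b : ZMod (4 * q)) :
    ∃ w : (GG q □ CY q).Walk (Sum.inl false, a) (Sum.inl true, b),
      w.length = (GG q □ CY q).dist (Sum.inl false, a) (Sum.inl true, b) ∧
      ∀ v ∈ TS a b, v ∈ w.support := by
  have : Nonempty (Fin q × Fin q) := ⟨⟨0, hq⟩, ⟨0, hq⟩⟩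
  have hconn : (GG q □ CY q).Connected := kb_connected.boxProd (cy_connected hq)
  by_cases h : (TS a b).Nonempty
  · obtain ⟨v, r, j, s, k, h1, h2, -, -⟩ := h
    obtain ⟨w, hw, hs⟩ := geodesic hq (r, j) a (q + j.val) (by have := j.isLt; omega)
    subst h2
    refine ⟨w, hw, ?_⟩
    rintro v ⟨r', j', s', k', h1', h2', h3', rfl⟩
    obtain ⟨rfl, rfl⟩ := rep_unique h1 h1' rfl h2'
    exact hs k' h3'
  · obtain ⟨p, hp⟩ := (hconn.preconnected (Sum.inl false, a) (Sum.inl true, b)).exists_walk_length_eq_dist
    refine ⟨p, hp, fun v hv => absurd ⟨v, hv⟩ h⟩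

lemma cset_walk (hq : 0 < q) (x y : (Bool ⊕ (Fin q × Fin q)) × ZMod (4 * q)) :
    ∃ p : (GG q □ CY q).Walk x y, p.length = (GG q □ CY q).dist x y ∧
      ∀ v ∈ cset x y, v ∈ p.support := by
  have : Nonempty (Fin q × Fin q) := ⟨⟨0, hq⟩, ⟨0, hq⟩⟩
  have hconn : (GG q □ CY q).Connected := kb_connected.boxProd (cy_connected hq)
  have hgen : cset x y = ∅ → ∃ p : (GG q □ CY q).Walk x y, p.length = (GG q □ CY q).dist x y ∧
      ∀ v ∈ cset x y, v ∈ p.support := by
    intro h
    obtain ⟨p, hp⟩ := (hconn.preconnected x y).exists_walk_length_eq_dist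
    refine ⟨p, hp, fun v hv => ?_⟩
    rw [h] at hv
    exact absurd hv (Set.notMem_empty _)
  rcases x with ⟨(_ | _) | _, a⟩ <;> rcases y with ⟨(_ | _) | _, b⟩
  · exact hgen rfl
  · exact ts_walk hq a b
  · exact hgen rfl
  · obtain ⟨w, hw, hs⟩ := ts_walk hq b a
    refine ⟨w.reverse, by rw [Walk.length_reverse, hw, dist_comm], fun v hv => ?_⟩
    rw [Walk.support_reverse, List.mem_reverse]
    exact hs v hv
  · exact hgen rfl
  · exact hgen rfl
  · exact hgen rfl
  · exact hgen rfl
  · exact hgen rfl

/-- The vertices over the small part of `G` form a strong geodetic set of the product. -/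
lemma product_upper (hq : 0 < q) : ∃ S : Finset ((Bool ⊕ (Fin q × Fin q)) × ZMod (4 * q)),
    S.card ≤ 8 * q ∧ IsStrongGeodetic (GG q □ CY q) S := by
  classical
  have : NeZero (4 * q) := ⟨by omega⟩
  have : Nonempty (Fin q × Fin q) := ⟨⟨0, hq⟩, ⟨0, hq⟩⟩
  have hconn : (GG q □ CY q).Connected := kb_connected.boxProd (cy_connected hq)
  obtain ⟨P, h1, h2, h3⟩ := exists_family (G := GG q □ CY q) cset cset_symm (fun x y _ => cset_walk hq x y)
  let f : Bool × ZMod (4 * q) → (Bool ⊕ (Fin q × Fin q)) × ZMod (4 * q) := fun z => (Sum.inl z.1, z.2)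
  refine ⟨Finset.univ.image f, ?_, P, fun x _ y _ _ => ⟨h1 x y, h2 x y⟩, ?_⟩
  · refine Finset.card_image_le.trans ?_
    rw [Finset.card_univ, Fintype.card_prod, Fintype.card_bool, ZMod.card]
    omega
  · rintro ⟨g, h⟩
    have hmem : ∀ (b : Bool) (z : ZMod (4 * q)),
        ((Sum.inl b, z) : (Bool ⊕ (Fin q × Fin q)) × ZMod (4 * q)) ∈ Finset.univ.image f :=
      fun b z => Finset.mem_image.2 ⟨(b, z), Finset.mem_univ _, rfl⟩
    rcases g with b | ⟨r, j⟩
    · refine ⟨(Sum.inl b, h), hmem _ _, (Sum.inl (!b), h), hmem _ _, ?_, Walk.start_mem_support _⟩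
      intro he
      have := congrArg Prod.fst he
      simp at this
    · -- `h = r + q s + δ` with `δ < q`
      set n : ℕ := (h - (r.val : ZMod (4 * q))).val with hn
      have hn' : h = (r.val : ZMod (4 * q)) + (n : ZMod (4 * q)) := by
        rw [hn, ZMod.natCast_zmod_val]
        ring
      have hdm : n = q * (n / q) + n % q := (Nat.div_add_mod n q).symm
      have hlt : n % q < q := Nat.mod_lt _ hq
      refine ⟨(Sum.inl false, ((r.val + q * (n / q) : ℕ) : ZMod (4 * q))), hmem _ _,
        (Sum.inl true, ((r.val + q * (n / q) : ℕ) : ZMod (4 * q)) + ((q + j.val : ℕ) : ZMod (4 * q))),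
        hmem _ _, ?_, ?_⟩
      · intro he
        have := congrArg Prod.fst he
        simp at this
      · apply h3
        · intro he
          have := congrArg Prod.fst he
          simp at this
        · refine ⟨r, j, n / q, n % q, rfl, rfl, by omega, ?_⟩
          rw [Prod.mk.injEq]
          refine ⟨rfl, ?_⟩
          rw [hn']
          conv_lhs => rw [hdm]
          push_cast
          ring

end product

/-- **Theorem.** The inequality `sg(G □ H) ≥ max {sg(G), sg(H)}` fails for the strong geodetic number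
of Cartesian products of connected graphs, and no linear weakening of it holds: for every `c` there
are finite connected graphs `G` and `H` with `sg(G) > c · sg(G □ H)`. -/
theorem result : ∀ c : ℕ, ∃ (V W : Type) (_ : Fintype V) (_ : Fintype W) (G : SimpleGraph V)
    (H : SimpleGraph W), G.Connected ∧ H.Connected ∧
    ∃ a b : ℕ, IsStrongGeodeticNumber (G □ H) a ∧ IsStrongGeodeticNumber G b ∧ c * a < b := by
  intro c
  let q : ℕ := 8 * c + 1
  have hq : 0 < q := by simp [q]
  have : NeZero (4 * q) := ⟨by omega⟩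
  have : Nonempty (Fin q × Fin q) := ⟨⟨0, hq⟩, ⟨0, hq⟩⟩
  have hG : (GG q).Connected := kb_connected
  refine ⟨Bool ⊕ (Fin q × Fin q), ZMod (4 * q), inferInstance, inferInstance, GG q, CY q, hG,
    cy_connected hq, ?_⟩
  obtain ⟨S, hS1, hS2⟩ := product_upper hq
  have hne1 : {n : ℕ | ∃ S : Finset ((Bool ⊕ (Fin q × Fin q)) × ZMod (4 * q)), S.card = n ∧
      IsStrongGeodetic (GG q □ CY q) S}.Nonempty := ⟨S.card, S, rfl, hS2⟩
  have hmem : S.card ∈ {n : ℕ | ∃ S : Finset ((Bool ⊕ (Fin q × Fin q)) × ZMod (4 * q)), S.card = n ∧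
      IsStrongGeodetic (GG q □ CY q) S} := ⟨S, rfl, hS2⟩
  have : Nontrivial (Bool ⊕ (Fin q × Fin q)) := ⟨⟨Sum.inl false, Sum.inl true, by simp⟩⟩
  have hne2 : {n : ℕ | ∃ S : Finset (Bool ⊕ (Fin q × Fin q)), S.card = n ∧
      IsStrongGeodetic (GG q) S}.Nonempty := ⟨Finset.univ.card, Finset.univ, rfl, univ_strong hG⟩
  refine ⟨sInf _, sInf _, ⟨Nat.sInf_mem hne1, fun n hn => Nat.sInf_le hn⟩,
    ⟨Nat.sInf_mem hne2, fun n hn => Nat.sInf_le hn⟩, ?_⟩
  have h1 : sInf {n : ℕ | ∃ S : Finset ((Bool ⊕ (Fin q × Fin q)) × ZMod (4 * q)), S.card = n ∧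
      IsStrongGeodetic (GG q □ CY q) S} ≤ 8 * q := (Nat.sInf_le hmem).trans hS1
  obtain ⟨S', hS1', hS2'⟩ := Nat.sInf_mem hne2
  have h2 := kb_lower S' hS2'
  rw [hS1', Fintype.card_prod, Fintype.card_fin] at h2
  refine lt_of_le_of_lt (Nat.mul_le_mul_left c h1) (lt_of_lt_of_le ?_ h2)
  have : c * (8 * q) = (8 * c) * q := by ring
  rw [this]
  exact Nat.mul_lt_mul_of_pos_right (by simp [q]) hq

end Pool.Agent.Results.MP_8400ad_co.ProductSmaller
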